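import Pool.Agent.H6.AK.Asm
import Pool.Agent.H37.AK.Adapt
import Pool.Agent.H46.AK.RAT
import Pool.Agent.H49.AK.NOC
import Pool.Agent.H67.AK.ASY
import Pool.Agent.H2.AK.LST
import Pool.Agent.H2.AK.PAR
import Pool.Agent.H33.AK.BAL
import Pool.Agent.H33.AK.DEG
import Pool.Agent.H65.AK.GRD
import Pool.Agent.H57.AK.LIP

set_option autoImplicit false

namespace Pool.Agent.H15.AKP

open Pool.Agent.H6.AK

/-- The graphs, with explicit polynomial bounds for the size of the lists. -/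
theorem base (C : ℕ) (hC : 1 ≤ C) :
    ∃ K : ℕ, C ^ 28 ≤ K ∧ K ≤ 2227374 ^ 4 * C ^ 28 ∧
      ∃ (V : Type) (_ : Fintype V) (G : SimpleGraph V) (_ : DecidableRel G.Adj)
        (L : V → Finset ℕ),
        G.Colorable 2 ∧ (C : ℝ) * Real.log (G.maxDegree : ℝ) ≤ (K : ℝ) ∧ 2 ≤ G.maxDegree ∧
        (∀ v, (L v).card = K) ∧
        ¬ ∃ f : V → ℕ, (∀ v, f v ∈ L v) ∧ ∀ u v, G.Adj u v → f u ≠ f v := by
  obtain ⟨q, hq⟩ : ∃ q, q = 8 * C := ⟨_, rfl⟩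
  obtain ⟨s, hs⟩ : ∃ s, s = 2 * C * (2 * (q * (q + 2)) ^ 2 + 1) * (q * (q + 2) + 7) := ⟨_, rfl⟩
  obtain ⟨N, hN, hlt, hD⟩ := Pool.Agent.H67.AK.ASY_aux C q s hC hq hs
  have hs7 : C ^ 7 ≤ s := by
    have h1 : C ^ 2 ≤ q * (q + 2) := by rw [hq]; nlinarith
    have h2 : C ^ 4 ≤ 2 * (q * (q + 2)) ^ 2 + 1 := by
      have h3 : (C ^ 2) ^ 2 ≤ (q * (q + 2)) ^ 2 := Nat.pow_le_pow_left h1 2
      have h4 : (C ^ 2) ^ 2 = C ^ 4 := by ring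
      omega
    calc C ^ 7 = C * C ^ 4 * C ^ 2 := by ring
      _ ≤ 2 * C * (2 * (q * (q + 2)) ^ 2 + 1) * (q * (q + 2) + 7) :=
          Nat.mul_le_mul (Nat.mul_le_mul (by omega) h2) (by omega)
      _ = s := hs.symm
  have hs8 : s ≤ 2227374 * C ^ 7 := by
    have h0 : C ≤ C ^ 2 := Nat.le_self_pow (by norm_num) C
    have h00 : 1 ≤ C ^ 2 := Nat.one_le_pow _ _ hC
    have h01 : 1 ≤ C ^ 4 := Nat.one_le_pow _ _ hC
    have h1 : q * (q + 2) ≤ 80 * C ^ 2 := by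
      have : q * (q + 2) = 64 * C ^ 2 + 16 * C := by rw [hq]; ring
      omega
    have h2 : 2 * (q * (q + 2)) ^ 2 + 1 ≤ 12801 * C ^ 4 := by
      have h3 : (q * (q + 2)) ^ 2 ≤ (80 * C ^ 2) ^ 2 := Nat.pow_le_pow_left h1 2
      have h4 : (80 * C ^ 2) ^ 2 = 6400 * C ^ 4 := by ring
      omega
    calc s = 2 * C * (2 * (q * (q + 2)) ^ 2 + 1) * (q * (q + 2) + 7) := hs
      _ ≤ 2 * C * (12801 * C ^ 4) * (87 * C ^ 2) :=
          Nat.mul_le_mul (Nat.mul_le_mul le_rfl h2) (by omega)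
      _ = 2227374 * C ^ 7 := by ring
  have hs1 : 1 ≤ s := le_trans (Nat.one_le_pow _ _ hC) hs7
  refine ⟨(s ^ 2) ^ 2, ?_, ?_, ?_⟩
  · calc C ^ 28 = ((C ^ 7) ^ 2) ^ 2 := by ring
      _ ≤ (s ^ 2) ^ 2 := Nat.pow_le_pow_left (Nat.pow_le_pow_left hs7 2) 2
  · calc (s ^ 2) ^ 2 ≤ ((2227374 * C ^ 7) ^ 2) ^ 2 :=
          Nat.pow_le_pow_left (Nat.pow_le_pow_left hs8 2) 2
      _ = 2227374 ^ 4 * C ^ 28 := by ring
  · have hASY := hD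
    have hPAR : PARStmt := Pool.Agent.H2.AK.PAR_thm
      (Pool.Agent.H2.AK.LST_thm Pool.Agent.H6.AK.grd_thm Pool.Agent.H46.AK.rat_thm)
    have hDEG : DEGStmt := Pool.Agent.H33.AK.DEG_thm Pool.Agent.H33.AK.BAL_thm
    have hNOC : NOCStmt :=
      Pool.Agent.H49.AK.NOC_thm (Pool.Agent.H37.AK.LOC_thm Pool.Agent.H57.AK.LIP_thm)
    have hq4 : 4 ≤ q := by omega
    have hn : 1 ≤ s ^ 2 := Nat.one_le_pow _ _ hs1
    obtain ⟨la, lb, hla, hlb, hLA, hLB⟩ := hPAR q (s ^ 2) N hq4 hn hlt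
    obtain ⟨hr, hu, h1, h2⟩ := par_num q (s ^ 2) hq4 hn
    classical
    obtain ⟨hcol, hdeg2, hdeg⟩ :=
      hDEG (q * (q + 2) * (s ^ 2) ^ 2) N (2 * (q * (q + 2)) ^ 2 * (s ^ 2)) hN
    have hcard : ∀ v : Vx (q * (q + 2) * (s ^ 2) ^ 2) N, (lst la lb v).card = (s ^ 2) ^ 2 := by
      intro v
      unfold lst
      rw [Finset.card_map]
      split_ifs
      · exact hla _ _
      · exact hlb _
    exact ⟨Vx (q * (q + 2) * (s ^ 2) ^ 2) N, inferInstance,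
      gr (q * (q + 2) * (s ^ 2) ^ 2) N (2 * (q * (q + 2)) ^ 2 * (s ^ 2)), Classical.decRel _,
      lst la lb, hcol, hD _ hdeg2 hdeg, hdeg2, hcard,
      hNOC (q * (q + 2) * (s ^ 2) ^ 2) N (2 * (q * (q + 2)) ^ 2 * (s ^ 2)) ((s ^ 2) ^ 2) q
        (1 / (2 * ((q * (q + 2) : ℕ) : ℝ))) la lb hr hu h1 h2 hLA hLB⟩

/-- The choice of `C` for a given maximum degree. -/
theorem choice : ∃ D₀ : ℕ, ∀ D : ℕ, D₀ ≤ D → ∃ C : ℕ, 1 ≤ C ∧
    (2227374 : ℝ) ^ 4 * (C : ℝ) ^ 27 ≤ Real.log D ∧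
    Real.log D ^ (29 / 28 : ℝ) < (C : ℝ) ^ 28 := by
  obtain ⟨A, hA⟩ : ∃ A : ℝ, A = 2227374 ^ 4 := ⟨_, rfl⟩
  have hA1 : 1 ≤ A := by rw [hA]; norm_num
  have hA0 : 0 < A := by linarith
  -- y ^ (1/28) tends to infinity
  have t1 : Filter.Tendsto (fun y : ℝ => y ^ (1 / 28 : ℝ)) Filter.atTop Filter.atTop :=
    tendsto_rpow_atTop (by norm_num)
  have t2 : Filter.Tendsto (fun D : ℕ => (Real.log D / A) ^ (1 / 27 : ℝ))
      Filter.atTop Filter.atTop :=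
    (tendsto_rpow_atTop (by norm_num)).comp
      ((Real.tendsto_log_atTop.comp tendsto_natCast_atTop_atTop).atTop_div_const hA0)
  have e1 : ∀ᶠ y : ℝ in Filter.atTop, 2 ^ 28 * A ^ (29 / 28 : ℝ) < y ^ (1 / 28 : ℝ) :=
    t1.eventually (Filter.eventually_gt_atTop _)
  have e2 : ∀ᶠ y : ℝ in Filter.atTop, (2 : ℝ) ≤ y := Filter.eventually_ge_atTop _
  obtain ⟨D₀, hD₀⟩ := Filter.eventually_atTop.1 (t2.eventually (e1.and e2))
  refine ⟨max D₀ 1, fun D hD => ?_⟩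
  obtain ⟨h1, h2⟩ := hD₀ D (le_trans (le_max_left _ _) hD)
  have hD1 : 1 ≤ D := le_trans (le_max_right _ _) hD
  obtain ⟨x, hx⟩ : ∃ x, x = Real.log D := ⟨_, rfl⟩
  have hx0 : 0 ≤ x := by rw [hx]; exact Real.log_natCast_nonneg D
  obtain ⟨y, hy⟩ : ∃ y, y = (x / A) ^ (1 / 27 : ℝ) := ⟨_, rfl⟩
  rw [← hx] at h1 h2 ⊢
  rw [← hy] at h1 h2
  rw [← hA]
  have hxy : x = A * y ^ 27 := by
    have : y ^ 27 = x / A := by
      rw [hy, ← Real.rpow_natCast, ← Real.rpow_mul (by positivity)]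
      norm_num
    rw [this]
    field_simp
  have hy0 : 0 < y := by linarith
  refine ⟨⌊y⌋₊, ?_, ?_, ?_⟩
  · rw [Nat.one_le_floor_iff]
    linarith
  · have h3 : ((⌊y⌋₊ : ℕ) : ℝ) ≤ y := Nat.floor_le hy0.le
    rw [hxy]
    gcongr
  · have h3 : y / 2 ≤ ((⌊y⌋₊ : ℕ) : ℝ) := by
      have := Nat.lt_floor_add_one y
      linarith
    have h4 : (y / 2) ^ 28 ≤ ((⌊y⌋₊ : ℕ) : ℝ) ^ 28 := by gcongr
    have h5 : x ^ (29 / 28 : ℝ) = A ^ (29 / 28 : ℝ) * y ^ (783 / 28 : ℝ) := by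
      rw [hxy, Real.mul_rpow hA0.le (by positivity), ← Real.rpow_natCast y 27,
        ← Real.rpow_mul hy0.le]
      norm_num
    have h6 : y ^ (28 : ℝ) = y ^ (1 / 28 : ℝ) * y ^ (783 / 28 : ℝ) := by
      rw [← Real.rpow_add hy0]
      norm_num
    have h7 : y ^ (28 : ℝ) = y ^ 28 := by
      rw [← Real.rpow_natCast]
      norm_num
    have h8 : 0 < y ^ (783 / 28 : ℝ) := Real.rpow_pos_of_pos hy0 _
    have h9 : 2 ^ 28 * x ^ (29 / 28 : ℝ) < y ^ 28 := by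
      rw [h5, ← h7, h6, ← mul_assoc]
      exact mul_lt_mul_of_pos_right h1 h8
    have h10 : (y / 2) ^ 28 = y ^ 28 / 2 ^ 28 := by ring
    rw [h10] at h4
    have h11 : x ^ (29 / 28 : ℝ) < y ^ 28 / 2 ^ 28 := by
      rw [lt_div_iff₀ (by positivity)]
      linarith
    linarith

end Pool.Agent.H15.AKP
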